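import Mathlib

/-!
# Regular quasi-isometric embeddings into the symmetric space of `SL₂(ℝ) × SL₂(ℝ)`

Conventions of the problem, written out for the semisimple Lie group `G = SL₂(ℝ) × SL₂(ℝ)` and
`Θ = Δ` (all simple restricted roots).
-/

namespace Pool.Agent.H75.FT

open Matrix Filter
open scoped MatrixGroups Topology OnePoint

/-- The semisimple Lie group `G = SL₂(ℝ) × SL₂(ℝ)`. -/
abbrev G : Type := SL(2, ℝ) × SL(2, ℝ)

theorem orth_mul {A C : Matrix (Fin 2) (Fin 2) ℝ} (h1 : A * Aᵀ = 1) (h3 : C * Cᵀ = 1) :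
    (A * C) * (A * C)ᵀ = 1 := by
  rw [transpose_mul, Matrix.mul_assoc, ← Matrix.mul_assoc C, h3, Matrix.one_mul, h1]

theorem orth_transpose {A : Matrix (Fin 2) (Fin 2) ℝ} (h1 : A * Aᵀ = 1) : Aᵀ * Aᵀᵀ = 1 := by
  rw [transpose_transpose]
  exact mul_eq_one_comm.1 h1

/-- The rotation group `SO(2)` inside `SL₂(ℝ)`. -/
def SO2 : Subgroup SL(2, ℝ) where
  carrier := {a | (a : Matrix (Fin 2) (Fin 2) ℝ) * (a : Matrix (Fin 2) (Fin 2) ℝ)ᵀ = 1}
  one_mem' := by simp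
  mul_mem' := fun h1 h3 => orth_mul h1 h3
  inv_mem' := by
    intro a ha
    have h1 : (a⁻¹ : SL(2, ℝ)) = a.transpose :=
      inv_eq_of_mul_eq_one_right (Matrix.SpecialLinearGroup.ext _ _
        fun i j => congrFun (congrFun ha i) j)
    rw [h1]
    exact orth_transpose ha

/-- The maximal compact subgroup `K = SO(2) × SO(2)` of `G`. -/
def K : Subgroup G := SO2.prod SO2

/-- The matrix `diag(exp(t/2), exp(-t/2))` of `SL₂(ℝ)`. -/
noncomputable def diagA (t : ℝ) : SL(2, ℝ) :=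
  ⟨!![Real.exp (t / 2), 0; 0, Real.exp (-(t / 2))], by
    rw [Matrix.det_fin_two_of, ← Real.exp_add]; simp⟩

/-- The exponential map on the Cartan subspace `𝔞` of `G`, whose elements
`(diag(v₁/2, -v₁/2), diag(v₂/2, -v₂/2))` are identified with the pairs `v = (v₁, v₂)`. -/
noncomputable def expA (v : ℝ × ℝ) : G := (diagA v.1, diagA v.2)

/-- The two simple restricted roots of `G`: the first one takes `v` to `v₁`, the second one takes
`v` to `v₂`. -/
def root (i : Fin 2) (v : ℝ × ℝ) : ℝ := if i = 0 then v.1 else v.2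

/-- The closed Weyl chamber `𝔞⁺`. -/
def chamber : Set (ℝ × ℝ) := {v | ∀ i, 0 ≤ root i v}

/-- `v ∈ 𝔞⁺` is the Cartan projection `κ(g)` of `g`: `g ∈ K exp(v) K`. -/
def IsCartanProj (g : G) (v : ℝ × ℝ) : Prop :=
  v ∈ chamber ∧ ∃ k ∈ K, ∃ k' ∈ K, g = k * expA v * k'

/-- The symmetric space `X = G/K`. -/
abbrev X : Type := G ⧸ K

/-- `f : Z → X = G/K` is a `Θ`-uniformly regular quasi-isometric embedding, `Θ = Δ`.  The distance
`d_X(gK, g'K)` of the symmetric space is the Euclidean norm of the Cartan projection of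
`g⁻¹ g'`. -/
def IsURQI {Z : Type*} [MetricSpace Z] (f : Z → X) : Prop :=
  ∃ L A : ℝ, 1 ≤ L ∧ 0 ≤ A ∧ ∀ z z' : Z, ∀ g g' : G, (g : X) = f z → (g' : X) = f z' →
    ∀ v, IsCartanProj (g⁻¹ * g') v →
      Real.sqrt (v.1 ^ 2 + v.2 ^ 2) ≤ L * dist z z' + A ∧
        ∀ i, L⁻¹ * dist z z' - A ≤ root i v

/-- The full flag manifold of `G`, that is `F_Θ(G) = G/P_Θ` with `Θ = Δ` and `P_Θ` the group of
pairs of upper triangular matrices: it is `ℝP¹ × ℝP¹`, and `ℝP¹ = ℝ ∪ {∞}`. -/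
abbrev Flag : Type := OnePoint ℝ × OnePoint ℝ

/-- The action of `G` on its flag manifold, by pairs of fractional linear transformations. -/
noncomputable def act (g : G) (x : Flag) : Flag :=
  ((g.1 : GL (Fin 2) ℝ) • x.1, (g.2 : GL (Fin 2) ℝ) • x.2)

/-- The base point `P_Θ` of `F_Θ(G) = G/P_Θ`, the point of stabiliser `P_Θ`. -/
def base : Flag := (∞, ∞)

/-- `x` and `y` are transverse: `(x, y)` lies in an open `G`-orbit in `F_Θ × F_Θ`. -/
def Transverse (x y : Flag) : Prop :=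
  ∃ O : Set (Flag × Flag), IsOpen O ∧
    (∃ p : Flag × Flag, O = {q | ∃ g : G, q = (act g p.1, act g p.2)}) ∧ (x, y) ∈ O

/-- A transverse sphere: a subset of the flag manifold that is homeomorphic to a sphere `Sⁿ` of
some dimension `n ≥ 1` and whose points are pairwise transverse. -/
def IsTransverseSphere (Λ : Set Flag) : Prop :=
  (∃ n : ℕ, 1 ≤ n ∧ Nonempty (Λ ≃ₜ Metric.sphere (0 : EuclideanSpace ℝ (Fin (n + 1))) 1)) ∧
    ∀ x ∈ Λ, ∀ y ∈ Λ, x ≠ y → Transverse x y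

/-- `ξ = U_Θ(g)`: for `g = k exp(κ(g)) k'` with `α(κ(g)) > 0` for all `α ∈ Θ`, this is `k P_Θ`. -/
def IsU (g : G) (ξ : Flag) : Prop :=
  ∃ k ∈ K, ∃ v ∈ chamber, ∃ k' ∈ K, (∀ i, 0 < root i v) ∧ g = k * expA v * k' ∧ ξ = act k base

/-- The `Θ`-limit set of `f`: all limits of `U_Θ(g_{z_m})`, where `f(z) = g_z K`, over sequences
`(z_m)` that leave every bounded subset of `Z`. -/
def limitSet {Z : Type*} [MetricSpace Z] (f : Z → X) : Set Flag :=
  {ξ | ∃ z : ℕ → Z, Tendsto z atTop (Bornology.cobounded Z) ∧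
    ∃ g : ℕ → G, (∀ m, (g m : X) = f (z m)) ∧
      ∃ u : ℕ → Flag, (∀ m, IsU (g m) (u m)) ∧ Tendsto u atTop (𝓝 ξ)}

/-- `Z` is a quasi-geodesic metric space: for some `L`, any two points are joined by an
`(L, L)`-quasi-geodesic, continuous or not.  Every geodesic metric space is quasi-geodesic
(take `L = 1`). -/
def IsQuasiGeodesicSpace (Z : Type*) [MetricSpace Z] : Prop :=
  ∃ L : ℝ, 1 ≤ L ∧ ∀ z z' : Z, ∃ (T : ℝ) (γ : ℝ → Z), 0 ≤ T ∧ γ 0 = z ∧ γ T = z' ∧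
    ∀ s ∈ Set.Icc 0 T, ∀ t ∈ Set.Icc 0 T,
      L⁻¹ * |s - t| - L ≤ dist (γ s) (γ t) ∧ dist (γ s) (γ t) ≤ L * |s - t| + L

end Pool.Agent.H75.FT
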