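import Mathlib

/-!
# Coarse geometry of four-point hyperbolic spaces with geodesic lines

Stability of quasi-geodesic chains, in the form of two inequalities for Gromov products.
-/

namespace Pool.Agent.H75.FT

open Set

section

variable {H : Type*} [MetricSpace H]

/-- the Gromov product of `x` and `y` at `o` -/
noncomputable def gp (o x y : H) : ℝ := (dist x o + dist y o - dist x y) / 2

/-- Gromov's four-point condition -/
def Hyp (H : Type*) [MetricSpace H] (δ : ℝ) : Prop :=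
  ∀ o x y z : H, min (gp o x y) (gp o y z) - δ ≤ gp o x z

/-- any two points lie on a geodesic line -/
def Geo (H : Type*) [MetricSpace H] : Prop :=
  ∀ x y : H, ∃ γ : ℝ → H, Isometry γ ∧ γ 0 = x ∧ γ (dist x y) = y

theorem gp_comm (o x y : H) : gp o x y = gp o y x := by
  unfold gp; rw [dist_comm x y]; ring

theorem gp_self (o x : H) : gp o x x = dist x o := by
  unfold gp; rw [dist_self]; ring

theorem log_lemma {δ S : ℝ} (hδ : 0 ≤ δ) (hS : 0 ≤ S) (hH : Hyp H δ) (c : ℕ → H) (o : H) :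
    ∀ k n a : ℕ, n ≤ 2 ^ k → (∀ i, a ≤ i → i < a + n → dist (c i) (c (i + 1)) ≤ S) →
      ∃ i, a ≤ i ∧ i ≤ a + n ∧ dist (c i) o ≤ gp o (c a) (c (a + n)) + S + k * δ := by
  intro k
  induction k with
  | zero =>
    intro n a hn hstep
    have hn' : n = 0 ∨ n = 1 := by
      simp only [pow_zero] at hn; omega
    rcases hn' with rfl | rfl
    · refine ⟨a, le_rfl, le_rfl, ?_⟩
      simp only [add_zero, gp_self]
      simp; linarith
    · have h1 := hstep a le_rfl (by omega)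
      by_cases hle : dist (c a) o ≤ dist (c (a + 1)) o
      · refine ⟨a, le_rfl, by omega, ?_⟩
        unfold gp
        simp; linarith
      · refine ⟨a + 1, by omega, le_rfl, ?_⟩
        unfold gp
        simp; linarith
  | succ k ih =>
    intro n a hn hstep
    by_cases hnk : n ≤ 2 ^ k
    · obtain ⟨i, h1, h2, h3⟩ := ih n a hnk hstep
      refine ⟨i, h1, h2, h3.trans ?_⟩
      push_cast; nlinarith
    · push Not at hnk
      obtain ⟨m, rfl⟩ : ∃ m, n = 2 ^ k + m := ⟨n - 2 ^ k, by omega⟩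
      have hm : m ≤ 2 ^ k := by
        rw [pow_succ] at hn; omega
      obtain ⟨i, h1, h2, h3⟩ := ih (2 ^ k) a le_rfl (fun i hi hi' => hstep i hi (by omega))
      obtain ⟨j, h4, h5, h6⟩ := ih m (a + 2 ^ k) hm (fun i hi hi' => hstep i (by omega) (by omega))
      have h7 := hH o (c a) (c (a + 2 ^ k)) (c (a + 2 ^ k + m))
      rw [show a + (2 ^ k + m) = a + 2 ^ k + m by ring]
      rcases min_choice (gp o (c a) (c (a + 2 ^ k))) (gp o (c (a + 2 ^ k)) (c (a + 2 ^ k + m))) with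
        h | h
      · rw [h] at h7
        refine ⟨i, h1, by omega, ?_⟩
        push_cast; linarith
      · rw [h] at h7
        refine ⟨j, by omega, h5, ?_⟩
        push_cast; linarith

theorem sq_le_two_pow (k : ℕ) : k ^ 2 ≤ 2 ^ (k + 1) := by
  induction k with
  | zero => simp
  | succ k ih =>
    by_cases hk : k ≤ 2
    · interval_cases k <;> norm_num
    · push Not at hk
      have : (k + 1) ^ 2 ≤ 2 * k ^ 2 := by nlinarith
      calc (k + 1) ^ 2 ≤ 2 * k ^ 2 := this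
        _ ≤ 2 * 2 ^ (k + 1) := by omega
        _ = 2 ^ (k + 1 + 1) := by ring

theorem exists_pow (n : ℕ) : ∃ k : ℕ, n ≤ 2 ^ k ∧ 2 ^ k ≤ 2 * n + 2 := by
  refine ⟨Nat.log 2 n + 1, (Nat.lt_pow_succ_log_self (by norm_num) n).le, ?_⟩
  by_cases hn : n = 0
  · subst hn; simp
  · have := Nat.pow_log_le_self 2 hn
    rw [pow_succ]; omega

/-- quasi-geodesic chains with `n` steps -/
structure QG (S a b : ℝ) (c : ℕ → H) (n : ℕ) : Prop where
  step : ∀ i < n, dist (c i) (c (i + 1)) ≤ S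
  low : ∀ i j, i ≤ j → j ≤ n → ((j : ℝ) - i) ≤ a * dist (c i) (c j) + b

/-- `E` bounds the distance from the geodesic to the chain -/
def Bd (c : ℕ → H) (n : ℕ) (γ : ℝ → H) (E : ℝ) : Prop :=
  0 ≤ E ∧ ∀ t ∈ Icc (0 : ℝ) (dist (c 0) (c n)), ∃ i ≤ n, dist (γ t) (c i) ≤ E

theorem bd_key {δ S a b : ℝ} (hδ : 0 ≤ δ) (hS : 0 ≤ S) (ha : 0 ≤ a) (hb : 0 ≤ b) (hH : Hyp H δ)
    {c : ℕ → H} {n : ℕ} (hc : QG S a b c n) {γ : ℝ → H} (hγ : Isometry γ) (h0 : γ 0 = c 0)
    (hn : γ (dist (c 0) (c n)) = c n) {E : ℝ} (hE : Bd c n γ E) (hE' : ¬ Bd c n γ (E - 1)) :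
    E ≤ 1 + S + 2 * δ + (24 * a * δ + (24 * a * (1 + S + 2 * δ) + 4 * b + 4)) * δ := by
  obtain ⟨hE0, hEt⟩ := hE
  set D := dist (c 0) (c n) with hD
  have hD0 : 0 ≤ D := dist_nonneg
  by_cases hE1 : E < 1
  · have : 0 ≤ 24 * a * δ + (24 * a * (1 + S + 2 * δ) + 4 * b + 4) := by positivity
    nlinarith [mul_nonneg this hδ]
  push Not at hE1
  obtain ⟨t, ht, hfar⟩ : ∃ t ∈ Icc (0 : ℝ) D, ∀ i ≤ n, E - 1 < dist (γ t) (c i) := by
    by_contra hcon
    push Not at hcon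
    exact hE' ⟨by linarith, hcon⟩
  set o := γ t with ho
  have dγ : ∀ s u, dist (γ s) (γ u) = |s - u| := fun s u => by
    rw [hγ.dist_eq, Real.dist_eq]
  -- left point
  obtain ⟨t1, ht1, ht1t, hl1, p, hp, hp1, hp2⟩ : ∃ t1 ∈ Icc (0 : ℝ) D, t1 ≤ t ∧ t - t1 ≤ 2 * E ∧
      ∃ p ≤ n, E - 1 ≤ gp o (γ t1) (c p) ∧ dist (γ t1) (c p) ≤ E := by
    by_cases h : t - 2 * E ≤ 0
    · refine ⟨0, ⟨le_rfl, hD0⟩, ht.1, by linarith, 0, Nat.zero_le _, ?_, ?_⟩
      · rw [h0, gp_self, dist_comm]; exact (hfar 0 (Nat.zero_le _)).le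
      · rw [h0, dist_self]; exact hE0
    · push Not at h
      have hmem : t - 2 * E ∈ Icc (0 : ℝ) D := ⟨h.le, by linarith [ht.2]⟩
      obtain ⟨i, hi, hi2⟩ := hEt _ hmem
      refine ⟨t - 2 * E, hmem, by linarith, by linarith, i, hi, ?_, hi2⟩
      have h1 := hfar i hi
      have h2 : dist (γ (t - 2 * E)) o = 2 * E := by
        rw [ho, dγ, show t - 2 * E - t = -(2 * E) by ring, abs_neg, abs_of_nonneg (by linarith)]
      unfold gp
      rw [dist_comm (c i) o]
      linarith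
  obtain ⟨t2, ht2, ht2t, hl2, q, hq, hq1, hq2⟩ : ∃ t2 ∈ Icc (0 : ℝ) D, t ≤ t2 ∧ t2 - t ≤ 2 * E ∧
      ∃ q ≤ n, E - 1 ≤ gp o (γ t2) (c q) ∧ dist (γ t2) (c q) ≤ E := by
    by_cases h : D ≤ t + 2 * E
    · refine ⟨D, ⟨hD0, le_rfl⟩, ht.2, by linarith, n, le_rfl, ?_, ?_⟩
      · rw [hn, gp_self, dist_comm]; exact (hfar n le_rfl).le
      · rw [hn, dist_self]; exact hE0
    · push Not at h
      have hmem : t + 2 * E ∈ Icc (0 : ℝ) D := ⟨by linarith [ht.1], h.le⟩
      obtain ⟨i, hi, hi2⟩ := hEt _ hmem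
      refine ⟨t + 2 * E, hmem, by linarith, by linarith, i, hi, ?_, hi2⟩
      have h1 := hfar i hi
      have h2 : dist (γ (t + 2 * E)) o = 2 * E := by
        rw [ho, dγ, show t + 2 * E - t = 2 * E by ring, abs_of_nonneg (by linarith)]
      unfold gp
      rw [dist_comm (c i) o]
      linarith
  have hpq : dist (c p) (c q) ≤ 6 * E := by
    have h1 : dist (γ t1) (γ t2) ≤ 4 * E := by
      rw [dγ, abs_sub_comm, abs_of_nonneg (by linarith)]; linarith
    have h2 := dist_triangle4 (c p) (γ t1) (γ t2) (c q)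
    rw [dist_comm (c p) (γ t1)] at h2
    linarith
  -- middle part
  obtain ⟨k, hk1, hk2⟩ : ∃ k : ℕ, (2 : ℝ) ^ k ≤ 2 * (6 * a * E + b) + 2 ∧
      E - 1 - S - k * δ ≤ gp o (c p) (c q) := by
    have key : ∀ p q : ℕ, p ≤ q → q ≤ n → dist (c p) (c q) ≤ 6 * E →
        ∃ k : ℕ, (2 : ℝ) ^ k ≤ 2 * (6 * a * E + b) + 2 ∧
      E - 1 - S - k * δ ≤ gp o (c p) (c q) := by
      intro p q hpq hq hd
      obtain ⟨m, rfl⟩ : ∃ m, q = p + m := ⟨q - p, by omega⟩
      obtain ⟨k, hk, hk'⟩ := exists_pow m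
      obtain ⟨i, hi1, hi2, hi3⟩ := log_lemma hδ hS hH c o k m p hk
        (fun i hi hi' => hc.step i (by omega))
      have h1 := hfar i (by omega)
      have h2 := hc.low p (p + m) (by omega) hq
      refine ⟨k, ?_, ?_⟩
      · have h3 : ((2 : ℝ) ^ k) ≤ 2 * m + 2 := by exact_mod_cast hk'
        have h4 : (m : ℝ) ≤ a * (6 * E) + b := by
          push_cast at h2
          have := mul_le_mul_of_nonneg_left hd ha
          linarith
        linarith
      · rw [dist_comm] at h1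
        linarith
    rcases le_total p q with h | h
    · exact key p q h hq hpq
    · obtain ⟨k, h1, h2⟩ := key q p h hp (by rwa [dist_comm])
      exact ⟨k, h1, by rwa [gp_comm]⟩
  have hgp0 : gp o (γ t1) (γ t2) = 0 := by
    unfold gp
    rw [ho, dγ, dγ, dγ, abs_sub_comm t1 t, abs_of_nonneg (by linarith : 0 ≤ t - t1),
      abs_of_nonneg (by linarith : 0 ≤ t2 - t), abs_sub_comm t1 t2,
      abs_of_nonneg (by linarith : 0 ≤ t2 - t1)]
    ring
  have g1 := hH o (γ t1) (c p) (γ t2)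
  have g2 := hH o (c p) (c q) (γ t2)
  rw [hgp0] at g1
  rw [gp_comm o (γ t2)] at hq1
  have g3 : E - 1 - S - k * δ ≤ min (gp o (c p) (c q)) (gp o (c q) (γ t2)) :=
    le_min hk2 (by nlinarith [mul_nonneg (Nat.cast_nonneg (α := ℝ) k) hδ])
  have g4 : E - 1 - S - k * δ - δ ≤ min (gp o (γ t1) (c p)) (gp o (c p) (γ t2)) :=
    le_min (by nlinarith [mul_nonneg (Nat.cast_nonneg (α := ℝ) k) hδ]) (by linarith)
  have g5 : E ≤ 1 + S + 2 * δ + k * δ := by linarith
  set P := 24 * a * δ with hP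
  set Q := 24 * a * (1 + S + 2 * δ) + 4 * b + 4 with hQ
  have hP0 : 0 ≤ P := by positivity
  have hQ0 : 0 ≤ Q := by positivity
  have hkk : (k : ℝ) ^ 2 ≤ P * k + Q := by
    have h1 : ((k : ℝ)) ^ 2 ≤ 2 ^ (k + 1) := by exact_mod_cast sq_le_two_pow k
    rw [pow_succ (2 : ℝ) k] at h1
    have h2 : a * E ≤ a * (1 + S + 2 * δ + k * δ) := mul_le_mul_of_nonneg_left g5 ha
    rw [hP, hQ]
    nlinarith
  have hk3 : (k : ℝ) ≤ P + Q := by
    rcases Nat.eq_zero_or_pos k with h | h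
    · subst h; simp; linarith
    · have h1 : (1 : ℝ) ≤ k := by exact_mod_cast h
      by_contra hcon
      push Not at hcon
      nlinarith
  nlinarith [mul_le_mul_of_nonneg_right hk3 hδ]

/-- the geodesic stays close to the chain -/
theorem near_lemma {δ S a b : ℝ} (hδ : 0 ≤ δ) (hS : 0 ≤ S) (ha : 0 ≤ a) (hb : 0 ≤ b)
    (hH : Hyp H δ) : ∃ R : ℝ, 0 ≤ R ∧ ∀ (c : ℕ → H) (n : ℕ), QG S a b c n →
      ∀ γ : ℝ → H, Isometry γ → γ 0 = c 0 → γ (dist (c 0) (c n)) = c n → Bd c n γ R := by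
  set R := 1 + S + 2 * δ + (24 * a * δ + (24 * a * (1 + S + 2 * δ) + 4 * b + 4)) * δ with hR
  refine ⟨R, by positivity, ?_⟩
  intro c n hc γ hγ h0 hn
  set T : Set ℝ := {E | Bd c n γ E} with hT
  have hne : T.Nonempty := by
    refine ⟨dist (c 0) (c n), dist_nonneg, fun t ht => ⟨0, Nat.zero_le _, ?_⟩⟩
    rw [← h0, hγ.dist_eq, Real.dist_eq, sub_zero, abs_of_nonneg ht.1]
    rw [h0]; exact ht.2
  have hbdd : BddBelow T := ⟨0, fun E hE => hE.1⟩
  obtain ⟨E, hE, hlt⟩ := exists_lt_of_csInf_lt hne (show sInf T < sInf T + 1 by linarith)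
  have hE' : ¬ Bd c n γ (E - 1) := fun h => by
    have := csInf_le hbdd (show E - 1 ∈ T from h)
    linarith
  have hle := bd_key hδ hS ha hb hH hc hγ h0 hn hE hE'
  refine ⟨by positivity, fun t ht => ?_⟩
  obtain ⟨i, hi, hi2⟩ := hE.2 t ht
  exact ⟨i, hi, hi2.trans hle⟩

theorem dist_le_steps {S : ℝ} {c : ℕ → H} {n : ℕ}
    (h : ∀ i < n, dist (c i) (c (i + 1)) ≤ S) : ∀ i m, i + m ≤ n →
      dist (c i) (c (i + m)) ≤ S * m := by
  intro i m
  induction m with
  | zero => intro _; simp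
  | succ m ih =>
    intro hm
    have h1 := ih (by omega)
    have h2 := h (i + m) (by omega)
    have h3 := dist_triangle (c i) (c (i + m)) (c (i + m + 1))
    rw [show i + (m + 1) = i + m + 1 by ring]
    push_cast
    nlinarith

/-- the chain stays close to the geodesic -/
theorem far_lemma {S a b R : ℝ} (hS : 0 ≤ S)
    {c : ℕ → H} {n : ℕ} (hc : QG S a b c n) {γ : ℝ → H} (hγ : Isometry γ) (h0 : γ 0 = c 0)
    (hn : γ (dist (c 0) (c n)) = c n) (hR : Bd c n γ R) (ha : 0 ≤ a) :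
    ∀ j ≤ n, ∃ t ∈ Icc (0 : ℝ) (dist (c 0) (c n)), dist (γ t) (c j) ≤ R + S * (2 * a * R + b) := by
  intro j hj
  obtain ⟨hR0, hRt⟩ := hR
  set D := dist (c 0) (c n) with hD
  have hD0 : 0 ≤ D := dist_nonneg
  set A : Set ℝ := ⋃ i ∈ Set.Iic j, {t | dist (γ t) (c i) ≤ R} with hA
  set B : Set ℝ := ⋃ i ∈ Set.Icc j n, {t | dist (γ t) (c i) ≤ R} with hB
  have hcl : ∀ i, IsClosed {t | dist (γ t) (c i) ≤ R} := fun i =>
    isClosed_le (hγ.continuous.dist continuous_const) continuous_const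
  have hAc : IsClosed A := (Set.finite_Iic j).isClosed_biUnion (fun i _ => hcl i)
  have hBc : IsClosed B := (Set.finite_Icc j n).isClosed_biUnion (fun i _ => hcl i)
  have hcov : Icc (0 : ℝ) D ⊆ A ∪ B := by
    intro t ht
    obtain ⟨i, hi, hi2⟩ := hRt t ht
    rcases le_total i j with h | h
    · left
      exact Set.mem_biUnion (show i ∈ Set.Iic j from h) hi2
    · right
      exact Set.mem_biUnion (show i ∈ Set.Icc j n from ⟨h, hi⟩) hi2
  have hA0 : (Icc (0 : ℝ) D ∩ A).Nonempty := by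
    refine ⟨0, ⟨le_rfl, hD0⟩, Set.mem_biUnion (show 0 ∈ Set.Iic j from Nat.zero_le _) ?_⟩
    simp only [Set.mem_ofPred_eq, h0, dist_self]; exact hR0
  have hB0 : (Icc (0 : ℝ) D ∩ B).Nonempty := by
    refine ⟨D, ⟨hD0, le_rfl⟩, Set.mem_biUnion (show n ∈ Set.Icc j n from ⟨hj, le_rfl⟩) ?_⟩
    simp only [Set.mem_ofPred_eq, hn, dist_self]; exact hR0
  obtain ⟨t, ht, htA, htB⟩ := (isPreconnected_closed_iff.1
    (isPreconnected_Icc : IsPreconnected (Icc (0 : ℝ) D))) A B hAc hBc hcov hA0 hB0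
  simp only [hA, hB, Set.mem_iUnion, Set.mem_Iic, Set.mem_Icc, Set.mem_ofPred_eq] at htA htB
  obtain ⟨i, hi, hi2⟩ := htA
  obtain ⟨i', hi', hi2'⟩ := htB
  refine ⟨t, ht, ?_⟩
  have h1 := hc.low i i' (by omega) hi'.2
  have h2 : dist (c i) (c i') ≤ 2 * R := by
    have := dist_triangle (c i) (γ t) (c i')
    rw [dist_comm (c i) (γ t)] at this
    linarith
  obtain ⟨m, rfl⟩ : ∃ m, j = i + m := ⟨j - i, by omega⟩
  have h3 := dist_le_steps hc.step i m hj
  have h4 : (m : ℝ) ≤ 2 * a * R + b := by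
    have h5 : ((i + m : ℕ) : ℝ) ≤ i' := by exact_mod_cast hi'.1
    push_cast at h5
    have := mul_le_mul_of_nonneg_left h2 ha
    linarith
  have h6 := dist_triangle (γ t) (c i) (c (i + m))
  have h7 := mul_le_mul_of_nonneg_left h4 hS
  linarith

/-- **Stability of quasi-geodesic chains**, for Gromov products. -/
theorem stability {δ S a b : ℝ} (hδ : 0 ≤ δ) (hS : 0 ≤ S) (ha : 0 ≤ a) (hb : 0 ≤ b)
    (hH : Hyp H δ) (hG : Geo H) : ∃ C : ℝ, 0 ≤ C ∧ ∀ (c : ℕ → H) (n : ℕ), QG S a b c n →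
      ∀ o : H, (∃ i ≤ n, dist (c i) o ≤ gp o (c 0) (c n) + C) ∧
        ∀ i ≤ n, gp o (c 0) (c n) ≤ dist (c i) o + C := by
  obtain ⟨R, hR0, hR⟩ := near_lemma hδ hS ha hb hH
  refine ⟨2 * δ + R + S * (2 * a * R + b), by positivity, ?_⟩
  intro c n hc o
  obtain ⟨γ, hγ, h0, hn⟩ := hG (c 0) (c n)
  have hBd := hR c n hc γ hγ h0 hn
  have hpos : 0 ≤ S * (2 * a * R + b) := by positivity
  have dγ : ∀ s u, dist (γ s) (γ u) = |s - u| := fun s u => by
    rw [hγ.dist_eq, Real.dist_eq]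
  set D := dist (c 0) (c n) with hD
  have hx : ∀ t ∈ Icc (0 : ℝ) D, dist (c 0) (γ t) = t := fun t ht => by
    rw [← h0, dγ, zero_sub, abs_neg, abs_of_nonneg ht.1]
  have hy : ∀ t ∈ Icc (0 : ℝ) D, dist (c n) (γ t) = D - t := fun t ht => by
    rw [← hn, dγ, abs_of_nonneg (by linarith [ht.2])]
  constructor
  · set s := gp (c 0) o (c n) with hs
    have e1 : s = (dist o (c 0) + D - dist o (c n)) / 2 := by
      rw [hs]; unfold gp; rw [dist_comm (c n) (c 0)]
    have t1 := dist_triangle o (c 0) (c n)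
    have t2 := dist_triangle (c 0) o (c n)
    have t3 := dist_triangle o (c n) (c 0)
    rw [dist_comm (c 0) o] at t2
    rw [dist_comm (c n) (c 0)] at t3
    have hsm : s ∈ Icc (0 : ℝ) D := by
      constructor
      · rw [e1]; linarith
      · rw [e1]; linarith
    obtain ⟨i, hi, hi2⟩ := hBd.2 s hsm
    refine ⟨i, hi, ?_⟩
    set w := γ s with hw
    have g1 := hH w (c 0) o (c n)
    have g2 : gp w (c 0) (c n) = 0 := by
      unfold gp; rw [hx s hsm, hy s hsm]; ring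
    have g3 : dist w o ≤ gp o (c 0) (c n) + 2 * δ := by
      have e2 : gp o (c 0) (c n) = (dist o (c 0) + dist o (c n) - D) / 2 := by
        unfold gp; rw [dist_comm (c 0) o, dist_comm (c n) o]
      rcases min_choice (gp w (c 0) o) (gp w o (c n)) with h | h
      · rw [h, g2] at g1
        have : gp w (c 0) o = (s + dist o w - dist o (c 0)) / 2 := by
          unfold gp; rw [hx s hsm, dist_comm (c 0) o]
        rw [dist_comm w o]
        linarith
      · rw [h, g2] at g1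
        have : gp w o (c n) = (dist o w + (D - s) - dist o (c n)) / 2 := by
          unfold gp; rw [hy s hsm]
        rw [dist_comm w o]
        linarith
    have g4 := dist_triangle (c i) w o
    rw [dist_comm (c i) w] at g4
    linarith
  · intro i hi
    obtain ⟨t, ht, ht2⟩ := far_lemma hS hc hγ h0 hn hBd ha i hi
    have g1 := dist_triangle (c 0) (γ t) o
    have g2 := dist_triangle (c n) (γ t) o
    have g3 := dist_triangle (γ t) (c i) o
    rw [hx t ht] at g1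
    rw [hy t ht] at g2
    unfold gp
    linarith

end

end Pool.Agent.H75.FT
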