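import Mathlib
import Pool.Agent.H75.FT.Hyp
import Pool.Agent.H75.FT.Defs

/-!
# The hyperbolic plane: four-point hyperbolicity, Cartan decomposition of `SL₂(ℝ)`, geodesic lines
-/

namespace Pool.Agent.H75.FT

open UpperHalfPlane Matrix
open scoped MatrixGroups

/-- the rotation by the angle `θ` -/
noncomputable def rot (θ : ℝ) : SL(2, ℝ) :=
  ⟨!![Real.cos θ, -Real.sin θ; Real.sin θ, Real.cos θ], by
    rw [Matrix.det_fin_two_of]; nlinarith [Real.sin_sq_add_cos_sq θ]⟩

theorem hyp_aux {a b c d : ℍ} : dist a c + dist b d ≤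
    max (dist a b + dist c d) (dist b c + dist a d) + 2 * Real.log 4 := by
  set M := max (dist a b + dist c d) (dist b c + dist a d) with hM
  have hsq : ∀ x y : ℍ, 0 < Real.sqrt (x.im * y.im) := fun x y =>
    Real.sqrt_pos.2 (mul_pos x.im_pos y.im_pos)
  -- Ptolemy
  have pt := EuclideanGeometry.mul_dist_le_mul_dist_add_mul_dist (a : ℂ) (b : ℂ) (c : ℂ) (d : ℂ)
  have s : ∀ x y : ℍ, dist (x : ℂ) y = 2 * Real.sqrt x.im * Real.sqrt y.im *
      Real.sinh (dist x y / 2) := by
    intro x y
    rw [sinh_half_dist, Real.sqrt_mul x.im_pos.le]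
    have h1 : Real.sqrt x.im ≠ 0 := (Real.sqrt_pos.2 x.im_pos).ne'
    have h2 : Real.sqrt y.im ≠ 0 := (Real.sqrt_pos.2 y.im_pos).ne'
    field_simp
  rw [s a c, s b d, s a b, s c d, s b c, s a d] at pt
  have pos : 0 < Real.sqrt a.im * Real.sqrt b.im * Real.sqrt c.im * Real.sqrt d.im := by
    have := Real.sqrt_pos.2 a.im_pos
    have := Real.sqrt_pos.2 b.im_pos
    have := Real.sqrt_pos.2 c.im_pos
    have := Real.sqrt_pos.2 d.im_pos
    positivity
  have pt2 : Real.sinh (dist a c / 2) * Real.sinh (dist b d / 2) ≤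
      Real.sinh (dist a b / 2) * Real.sinh (dist c d / 2) +
      Real.sinh (dist b c / 2) * Real.sinh (dist a d / 2) := by
    by_contra hcon
    push Not at hcon
    have := mul_lt_mul_of_pos_left hcon pos
    nlinarith
  -- bounds on `sinh`
  have up : ∀ x y : ℍ, 2 * Real.sinh (dist x y / 2) ≤ Real.exp (dist x y / 2) := by
    intro x y
    rw [Real.sinh_eq]
    have := Real.exp_pos (-(dist x y / 2))
    linarith
  have lo : ∀ x y : ℍ, Real.exp (dist x y / 2) - 1 ≤ 2 * Real.sinh (dist x y / 2) := by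
    intro x y
    rw [Real.sinh_eq]
    have h0 : 0 ≤ dist x y := dist_nonneg
    have : Real.exp (-(dist x y / 2)) ≤ 1 := Real.exp_le_one_iff.2 (by linarith)
    linarith
  have sn : ∀ x y : ℍ, 0 ≤ Real.sinh (dist x y / 2) := fun x y =>
    Real.sinh_nonneg_iff.2 (by have : 0 ≤ dist x y := dist_nonneg; linarith)
  have e1 : ∀ x y : ℍ, 1 ≤ Real.exp (dist x y / 2) := fun x y =>
    Real.one_le_exp (by have : 0 ≤ dist x y := dist_nonneg; linarith)
  have hM1 : dist a b + dist c d ≤ M := le_max_left _ _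
  have hM2 : dist b c + dist a d ≤ M := le_max_right _ _
  have m1 : Real.exp (dist a b / 2) * Real.exp (dist c d / 2) ≤ Real.exp (M / 2) := by
    rw [← Real.exp_add]; exact Real.exp_le_exp.2 (by linarith)
  have m2 : Real.exp (dist b c / 2) * Real.exp (dist a d / 2) ≤ Real.exp (M / 2) := by
    rw [← Real.exp_add]; exact Real.exp_le_exp.2 (by linarith)
  have tri1 : dist a c ≤ M := by
    have h1 := dist_triangle a b c
    have h2 := dist_triangle a d c
    rw [dist_comm d c] at h2
    linarith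
  have tri2 : dist b d ≤ M := by
    have h1 := dist_triangle b a d
    have h2 := dist_triangle b c d
    rw [dist_comm b a] at h1
    linarith
  have m3 : Real.exp (dist a c / 2) ≤ Real.exp (M / 2) := Real.exp_le_exp.2 (by linarith)
  have m4 : Real.exp (dist b d / 2) ≤ Real.exp (M / 2) := Real.exp_le_exp.2 (by linarith)
  have p1 : (Real.exp (dist a c / 2) - 1) * (Real.exp (dist b d / 2) - 1) ≤
      2 * Real.exp (M / 2) := by
    have q1 : (Real.exp (dist a c / 2) - 1) * (Real.exp (dist b d / 2) - 1) ≤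
        (2 * Real.sinh (dist a c / 2)) * (2 * Real.sinh (dist b d / 2)) :=
      mul_le_mul (lo a c) (lo b d) (by linarith [e1 b d]) (by linarith [sn a c])
    have q2 : (2 * Real.sinh (dist a b / 2)) * (2 * Real.sinh (dist c d / 2)) ≤
        Real.exp (dist a b / 2) * Real.exp (dist c d / 2) :=
      mul_le_mul (up a b) (up c d) (by linarith [sn c d]) (by positivity)
    have q3 : (2 * Real.sinh (dist b c / 2)) * (2 * Real.sinh (dist a d / 2)) ≤
        Real.exp (dist b c / 2) * Real.exp (dist a d / 2) :=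
      mul_le_mul (up b c) (up a d) (by linarith [sn a d]) (by positivity)
    nlinarith
  have p2 : Real.exp ((dist a c + dist b d) / 2) ≤ Real.exp (M / 2 + Real.log 4) := by
    rw [Real.exp_add (M / 2), Real.exp_log (by norm_num)]
    have : Real.exp ((dist a c + dist b d) / 2) =
        Real.exp (dist a c / 2) * Real.exp (dist b d / 2) := by
      rw [← Real.exp_add]; congr 1; ring
    rw [this]
    nlinarith
  have p3 := Real.exp_le_exp.1 p2
  linarith

theorem hyp_halfPlane : Hyp ℍ (Real.log 4) := by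
  intro o x y z
  have h := @hyp_aux x y z o
  unfold gp
  have g1 := min_le_left ((dist x o + dist y o - dist x y) / 2)
      ((dist y o + dist z o - dist y z) / 2)
  have g2 := min_le_right ((dist x o + dist y o - dist x y) / 2)
      ((dist y o + dist z o - dist y z) / 2)
  rcases le_total (dist x y + dist z o) (dist y z + dist x o) with h1 | h1
  · rw [max_eq_right h1] at h
    linarith
  · rw [max_eq_left h1] at h
    linarith

theorem diagA_smul_I (t : ℝ) : ((diagA t • I : ℍ) : ℂ) = Complex.I * Real.exp t := by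
  rw [coe_specialLinearGroup_apply]
  simp only [diagA, Matrix.SpecialLinearGroup.coe_mk, of_apply, cons_val', cons_val_zero,
    cons_val_one, Algebra.algebraMap_self, RingHom.id_apply, coe_I]
  simp only [Complex.ofReal_zero, add_zero, zero_mul, zero_add]
  rw [div_eq_iff (by exact_mod_cast (Real.exp_pos _).ne')]
  have : Real.exp (t / 2) = Real.exp t * Real.exp (-(t / 2)) := by
    rw [← Real.exp_add]; congr 1; ring
  rw [this]
  push_cast
  ring

theorem isometry_diagA : Isometry fun t : ℝ => (diagA t • I : ℍ) := by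
  have : (fun t : ℝ => (diagA t • I : ℍ)) = fun y : ℝ => UpperHalfPlane.mk ⟨0, Real.exp y⟩
      (Real.exp_pos y) := by
    funext t
    ext
    rw [diagA_smul_I]
    apply Complex.ext
    · simp [Complex.exp_ofReal_im]
    · simp [Complex.exp_ofReal_re]
  rw [this]
  exact UpperHalfPlane.isometry_vertical_line 0

theorem dist_diagA (t : ℝ) (ht : 0 ≤ t) : dist (I : ℍ) (diagA t • I) = t := by
  have h := isometry_diagA.dist_eq 0 t
  have h0 : (diagA 0 • I : ℍ) = I := by
    ext
    rw [diagA_smul_I]; simp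
  simp only [h0] at h
  rw [h, Real.dist_eq, zero_sub, abs_neg, abs_of_nonneg ht]

theorem rot_smul_I (θ : ℝ) : (rot θ • I : ℍ) = I := by
  ext
  rw [coe_specialLinearGroup_apply]
  simp only [rot, Matrix.SpecialLinearGroup.coe_mk, of_apply, cons_val', cons_val_zero,
    cons_val_one, Algebra.algebraMap_self, RingHom.id_apply, coe_I]
  have hne : (Real.sin θ : ℂ) * Complex.I + Real.cos θ ≠ 0 := by
    intro h
    have h1 : Real.cos θ = 0 := by
      simpa [-Complex.ofReal_cos, -Complex.ofReal_sin] using congrArg Complex.re h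
    have h2 : Real.sin θ = 0 := by
      simpa [-Complex.ofReal_cos, -Complex.ofReal_sin] using congrArg Complex.im h
    have := Real.sin_sq_add_cos_sq θ
    rw [h1, h2] at this
    norm_num at this
  rw [div_eq_iff hne]
  push_cast
  linear_combination (-(Complex.sin θ)) * Complex.I_mul_I

/-- the Cartan decomposition of `SL₂(ℝ)` -/
theorem cartan (g : SL(2, ℝ)) : ∃ α t β : ℝ, 0 ≤ t ∧ g = rot α * diagA t * rot β := by
  set a := g 0 0 with ha
  set b := g 0 1 with hb
  set c := g 1 0 with hc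
  set d := g 1 1 with hd
  have hdet : a * d - b * c = 1 := by
    have := g.det_coe
    rw [Matrix.det_fin_two] at this
    exact this
  set u : ℂ := ⟨(a + d) / 2, (c - b) / 2⟩ with hu
  set v : ℂ := ⟨(a - d) / 2, (b + c) / 2⟩ with hv
  have huv : ‖u‖ ^ 2 - ‖v‖ ^ 2 = 1 := by
    rw [Complex.sq_norm, Complex.sq_norm, Complex.normSq_apply, Complex.normSq_apply]
    simp only [hu, hv]
    nlinarith
  set φ := Complex.arg u with hφ
  set ψ := Complex.arg v with hψ
  have u1 : ‖u‖ * Real.cos φ = (a + d) / 2 := Complex.norm_mul_cos_arg u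
  have u2 : ‖u‖ * Real.sin φ = (c - b) / 2 := Complex.norm_mul_sin_arg u
  have v1 : ‖v‖ * Real.cos ψ = (a - d) / 2 := Complex.norm_mul_cos_arg v
  have v2 : ‖v‖ * Real.sin ψ = (b + c) / 2 := Complex.norm_mul_sin_arg v
  have hpos : 0 < ‖u‖ - ‖v‖ := by
    by_contra hcon
    push Not at hcon
    nlinarith [norm_nonneg u, norm_nonneg v]
  have hprod : (‖u‖ + ‖v‖) * (‖u‖ - ‖v‖) = 1 := by nlinarith
  have hp1 : 1 ≤ ‖u‖ + ‖v‖ := by
    by_contra hcon
    push Not at hcon
    nlinarith [norm_nonneg u, norm_nonneg v]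
  set t := 2 * Real.log (‖u‖ + ‖v‖) with ht
  have ht0 : 0 ≤ t := by
    have := Real.log_nonneg hp1
    linarith
  have et1 : Real.exp (t / 2) = ‖u‖ + ‖v‖ := by
    rw [ht, mul_div_cancel_left₀ _ two_ne_zero, Real.exp_log (by linarith)]
  have et2 : Real.exp (-(t / 2)) = ‖u‖ - ‖v‖ := by
    rw [Real.exp_neg, et1]
    exact (eq_inv_of_mul_eq_one_right hprod).symm
  refine ⟨(φ + ψ) / 2, t, (φ - ψ) / 2, ht0, ?_⟩
  have c1 : Real.cos φ = Real.cos ((φ + ψ) / 2) * Real.cos ((φ - ψ) / 2) -
      Real.sin ((φ + ψ) / 2) * Real.sin ((φ - ψ) / 2) := by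
    rw [← Real.cos_add]; congr 1; ring
  have c2 : Real.sin φ = Real.sin ((φ + ψ) / 2) * Real.cos ((φ - ψ) / 2) +
      Real.cos ((φ + ψ) / 2) * Real.sin ((φ - ψ) / 2) := by
    rw [← Real.sin_add]; congr 1; ring
  have c3 : Real.cos ψ = Real.cos ((φ + ψ) / 2) * Real.cos ((φ - ψ) / 2) +
      Real.sin ((φ + ψ) / 2) * Real.sin ((φ - ψ) / 2) := by
    rw [← Real.cos_sub]; congr 1; ring
  have c4 : Real.sin ψ = Real.sin ((φ + ψ) / 2) * Real.cos ((φ - ψ) / 2) -
      Real.cos ((φ + ψ) / 2) * Real.sin ((φ - ψ) / 2) := by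
    rw [← Real.sin_sub]; congr 1; ring
  rw [c1] at u1
  rw [c2] at u2
  rw [c3] at v1
  rw [c4] at v2
  have e : ∀ i j, (rot ((φ + ψ) / 2) * diagA t * rot ((φ - ψ) / 2)) i j =
      (!![Real.cos ((φ + ψ) / 2), -Real.sin ((φ + ψ) / 2);
          Real.sin ((φ + ψ) / 2), Real.cos ((φ + ψ) / 2)] *
        !![Real.exp (t / 2), 0; 0, Real.exp (-(t / 2))] *
        !![Real.cos ((φ - ψ) / 2), -Real.sin ((φ - ψ) / 2);
          Real.sin ((φ - ψ) / 2), Real.cos ((φ - ψ) / 2)]) i j := fun i j => rfl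
  ext i j
  rw [e, Matrix.mul_fin_two, Matrix.mul_fin_two, et1, et2]
  fin_cases i <;> fin_cases j
  · change a = _
    simp only [Fin.zero_eta, Fin.isValue, of_apply, cons_val', cons_val_zero, cons_val_fin_one]
    linear_combination (-1 : ℝ) * u1 - v1
  · change b = _
    simp only [Fin.zero_eta, Fin.mk_one, Fin.isValue, of_apply, cons_val', cons_val_zero,
      cons_val_one, cons_val_fin_one]
    linear_combination u2 - v2
  · change c = _
    simp only [Fin.zero_eta, Fin.mk_one, Fin.isValue, of_apply, cons_val', cons_val_zero,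
      cons_val_one, cons_val_fin_one]
    linear_combination (-1 : ℝ) * u2 - v2
  · change d = _
    simp only [Fin.mk_one, Fin.isValue, of_apply, cons_val',
      cons_val_one, cons_val_fin_one]
    linear_combination (-1 : ℝ) * u1 + v1

theorem geo_halfPlane : Geo ℍ := by
  intro x y
  obtain ⟨g, rfl⟩ : ∃ g : SL(2, ℝ), g • I = x := ⟨x.toSL2R, toSL2R_smul_I x⟩
  obtain ⟨g', hg'⟩ : ∃ g' : SL(2, ℝ), g' • I = g⁻¹ • y :=
    ⟨(g⁻¹ • y).toSL2R, toSL2R_smul_I _⟩
  obtain ⟨α, t, β, ht, rfl⟩ := cartan g'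
  have hy : y = (g * rot α) • (diagA t • I : ℍ) := by
    rw [mul_smul, mul_smul, rot_smul_I] at hg'
    rw [mul_smul, hg', smul_inv_smul]
  have hd : dist (g • I : ℍ) y = t := by
    have : (g • I : ℍ) = (g * rot α) • (I : ℍ) := by rw [mul_smul, rot_smul_I]
    rw [this, hy, dist_smul, dist_diagA t ht]
  refine ⟨fun s => (g * rot α) • (diagA s • I : ℍ), ?_, ?_, ?_⟩
  · exact (isometry_smul ℍ (g * rot α)).comp isometry_diagA
  · have h0 : (diagA 0 • I : ℍ) = I := by
      ext
      rw [diagA_smul_I]; simp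
    simp only [h0, mul_smul, rot_smul_I]
  · change (g * rot α) • (diagA (dist (g • I : ℍ) y) • I : ℍ) = y
    rw [hd, hy]

end Pool.Agent.H75.FT
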