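import Mathlib
import Pool.Agent.H75.FT.HalfPlane

/-!
# The main argument
-/

namespace Pool.Agent.H75.FT

open UpperHalfPlane Filter
open scoped Matrix MatrixGroups Topology OnePoint

theorem so2_entries {k : SL(2, ℝ)} (hk : k ∈ SO2) :
    k 1 1 = k 0 0 ∧ k 0 1 = -k 1 0 ∧ k 0 0 ^ 2 + k 1 0 ^ 2 = 1 := by
  have h : (k : Matrix (Fin 2) (Fin 2) ℝ) * (k : Matrix (Fin 2) (Fin 2) ℝ)ᵀ = 1 := hk
  have hdet := k.det_coe
  rw [Matrix.det_fin_two] at hdet
  have h00 := congrFun (congrFun h 0) 0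
  have h11 := congrFun (congrFun h 1) 1
  simp only [Matrix.mul_apply, Fin.sum_univ_two, Matrix.transpose_apply, Matrix.one_apply_eq]
    at h00 h11
  have hs : (k 1 1 - k 0 0) ^ 2 + (k 0 1 + k 1 0) ^ 2 = 0 := by
    nlinarith
  have e1 : k 1 1 - k 0 0 = 0 := by
    by_contra hne
    have := sq_pos_of_ne_zero hne
    nlinarith [sq_nonneg (k 0 1 + k 1 0)]
  have e2 : k 0 1 + k 1 0 = 0 := by
    by_contra hne
    have := sq_pos_of_ne_zero hne
    nlinarith [sq_nonneg (k 1 1 - k 0 0)]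
  refine ⟨by linarith, by linarith, ?_⟩
  have e3 : k 0 1 = -k 1 0 := by linarith
  nlinarith

theorem so2_smul_I {k : SL(2, ℝ)} (hk : k ∈ SO2) : (k • I : ℍ) = I := by
  obtain ⟨h1, h2, h3⟩ := so2_entries hk
  ext
  rw [coe_specialLinearGroup_apply]
  simp only [Algebra.algebraMap_self, RingHom.id_apply, coe_I, h1, h2]
  have hne : (k 1 0 : ℂ) * Complex.I + k 0 0 ≠ 0 := by
    intro h
    have e1 : k 0 0 = 0 := by simpa using congrArg Complex.re h
    have e2 : k 1 0 = 0 := by simpa using congrArg Complex.im h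
    rw [e1, e2] at h3
    norm_num at h3
  rw [div_eq_iff hne]
  push_cast
  linear_combination (-(k 1 0 : ℂ)) * Complex.I_mul_I

theorem rot_mem (θ : ℝ) : rot θ ∈ SO2 := by
  change (rot θ : Matrix (Fin 2) (Fin 2) ℝ) * (rot θ : Matrix (Fin 2) (Fin 2) ℝ)ᵀ = 1
  have h := Real.sin_sq_add_cos_sq θ
  ext i j
  fin_cases i <;> fin_cases j <;>
    simp [rot, Matrix.mul_apply, Fin.sum_univ_two, Matrix.transpose_apply] <;> nlinarith

theorem exists_cartanProj (g : G) : ∃ v, IsCartanProj g v := by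
  obtain ⟨α, t, β, ht, h1⟩ := cartan g.1
  obtain ⟨α', t', β', ht', h2⟩ := cartan g.2
  refine ⟨(t, t'), ?_, (rot α, rot α'), ⟨rot_mem _, rot_mem _⟩, (rot β, rot β'),
    ⟨rot_mem _, rot_mem _⟩, ?_⟩
  · intro i
    unfold root
    split_ifs
    · exact ht
    · exact ht'
  · exact Prod.ext h1 h2

theorem dist_of_kak {g k k' : SL(2, ℝ)} {t : ℝ} (ht : 0 ≤ t) (hk : k ∈ SO2) (hk' : k' ∈ SO2)
    (h : g = k * diagA t * k') : dist (I : ℍ) (g • I) = t := by
  rw [h, mul_smul, mul_smul, so2_smul_I hk']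
  nth_rewrite 1 [← so2_smul_I hk]
  rw [dist_smul, dist_diagA t ht]

theorem root_zero (v : ℝ × ℝ) : root 0 v = v.1 := by simp [root]

theorem root_one (v : ℝ × ℝ) : root 1 v = v.2 := by simp [root]

theorem cartan_dist {g g' : G} {v : ℝ × ℝ} (h : IsCartanProj (g⁻¹ * g') v) :
    dist (g.1 • I : ℍ) (g'.1 • I) = v.1 ∧ dist (g.2 • I : ℍ) (g'.2 • I) = v.2 := by
  obtain ⟨hv, k, hk, k', hk', hg⟩ := h
  have h1 : 0 ≤ v.1 := by have := hv 0; rwa [root_zero] at this
  have h2 : 0 ≤ v.2 := by have := hv 1; rwa [root_one] at this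
  have e1 : g.1⁻¹ * g'.1 = k.1 * diagA v.1 * k'.1 := congrArg Prod.fst hg
  have e2 : g.2⁻¹ * g'.2 = k.2 * diagA v.2 * k'.2 := congrArg Prod.snd hg
  have f1 := dist_of_kak h1 hk.1 hk'.1 e1
  have f2 := dist_of_kak h2 hk.2 hk'.2 e2
  constructor
  · rw [← f1, mul_smul, ← dist_smul g.1 (I : ℍ), smul_inv_smul]
  · rw [← f2, mul_smul, ← dist_smul g.2 (I : ℍ), smul_inv_smul]

theorem mk_eq {g g' : G} (h : (g : X) = g') :
    (g.1 • I : ℍ) = g'.1 • I ∧ (g.2 • I : ℍ) = g'.2 • I := by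
  have h1 : g⁻¹ * g' ∈ K := QuotientGroup.eq.1 h
  have e1 : (g.1⁻¹ * g'.1) • (I : ℍ) = I := so2_smul_I h1.1
  have e2 : (g.2⁻¹ * g'.2) • (I : ℍ) = I := so2_smul_I h1.2
  constructor
  · rw [mul_smul, inv_smul_eq_iff] at e1; exact e1.symm
  · rw [mul_smul, inv_smul_eq_iff] at e2; exact e2.symm

/-- a quasi-geodesic of `Z` pushed to the hyperbolic plane by a quasi-isometric embedding -/
theorem chain_of_quasi {Z : Type*} [MetricSpace Z] {L A M : ℝ} (hL : 1 ≤ L)
    (hM : 1 ≤ M) {F : Z → ℍ} (hup : ∀ z z', dist (F z) (F z') ≤ L * dist z z' + A)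
    (hlo : ∀ z z', L⁻¹ * dist z z' - A ≤ dist (F z) (F z')) {T : ℝ} {γ : ℝ → Z} (hT : 0 ≤ T)
    (hγ : ∀ s ∈ Set.Icc 0 T, ∀ t ∈ Set.Icc 0 T,
      M⁻¹ * |s - t| - M ≤ dist (γ s) (γ t) ∧ dist (γ s) (γ t) ≤ M * |s - t| + M) :
    QG (2 * L * M + A) (M * L) (1 + M * L * A + M ^ 2)
      (fun j : ℕ => F (γ (min (j : ℝ) T))) ⌈T⌉₊ := by
  have hmem : ∀ j : ℕ, min (j : ℝ) T ∈ Set.Icc 0 T := fun j =>
    ⟨le_min (Nat.cast_nonneg _) hT, min_le_right _ _⟩
  constructor
  · intro i _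
    have h1 := (hγ _ (hmem i) _ (hmem (i + 1))).2
    have h2 : |min (i : ℝ) T - min ((i + 1 : ℕ) : ℝ) T| ≤ 1 := by
      push_cast
      rw [abs_le]
      constructor
      · have : min ((i : ℝ) + 1) T ≤ min (i : ℝ) T + 1 := by
          rw [min_add]
          exact le_min (min_le_left _ _) ((min_le_right _ _).trans (by linarith))
        linarith
      · have : min (i : ℝ) T ≤ min ((i : ℝ) + 1) T :=
          min_le_min (by linarith) le_rfl
        linarith
    have h3 := hup (γ (min (i : ℝ) T)) (γ (min ((i + 1 : ℕ) : ℝ) T))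
    have h4 : dist (γ (min (i : ℝ) T)) (γ (min ((i + 1 : ℕ) : ℝ) T)) ≤ 2 * M := by nlinarith
    have h5 := mul_le_mul_of_nonneg_left h4 (by linarith : (0 : ℝ) ≤ L)
    change dist (F (γ (min (i : ℝ) T))) (F (γ (min ((i + 1 : ℕ) : ℝ) T))) ≤ _
    linarith
  · intro i j hij hj
    change _ ≤ M * L * dist (F (γ (min (i : ℝ) T))) (F (γ (min (j : ℝ) T))) + _
    set D := dist (F (γ (min (i : ℝ) T))) (F (γ (min (j : ℝ) T))) with hD
    have h1 := (hγ _ (hmem i) _ (hmem j)).1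
    have h2 := hlo (γ (min (i : ℝ) T)) (γ (min (j : ℝ) T))
    rw [← hD] at h2
    set d := dist (γ (min (i : ℝ) T)) (γ (min (j : ℝ) T)) with hd
    have hjT : (j : ℝ) ≤ T + 1 := by
      have h5 : (j : ℝ) ≤ ⌈T⌉₊ := by exact_mod_cast hj
      exact h5.trans (Nat.ceil_lt_add_one hT).le
    have h3 : (j : ℝ) - 1 ≤ min (j : ℝ) T := le_min (by linarith) (by linarith)
    have h4 : min (i : ℝ) T ≤ i := min_le_left _ _
    have h6 : (j : ℝ) - i - 1 ≤ |min (i : ℝ) T - min (j : ℝ) T| := by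
      rw [abs_sub_comm]
      exact le_trans (by linarith) (le_abs_self _)
    have h7 : d ≤ L * (D + A) := by
      have : L⁻¹ * d ≤ D + A := by linarith
      rwa [inv_mul_le_iff₀ (by linarith)] at this
    have h8 : |min (i : ℝ) T - min (j : ℝ) T| ≤ M * (d + M) := by
      have : M⁻¹ * |min (i : ℝ) T - min (j : ℝ) T| ≤ d + M := by linarith
      rwa [inv_mul_le_iff₀ (by linarith)] at this
    have h9 := mul_le_mul_of_nonneg_left h7 (by linarith : (0 : ℝ) ≤ M)
    nlinarith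

/-- The key comparison: Gromov products in the two factors are linearly comparable. -/
theorem compare {Z : Type*} [MetricSpace Z] (hZ : IsQuasiGeodesicSpace Z) {L A : ℝ} (hL : 1 ≤ L)
    (hA : 0 ≤ A) {F F' : Z → ℍ} (hup : ∀ z z', dist (F z) (F z') ≤ L * dist z z' + A)
    (hlo : ∀ z z', L⁻¹ * dist z z' - A ≤ dist (F z) (F z'))
    (hup' : ∀ z z', dist (F' z) (F' z') ≤ L * dist z z' + A)
    (hlo' : ∀ z z', L⁻¹ * dist z z' - A ≤ dist (F' z) (F' z')) (o : ℍ) (z0 : Z) :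
    ∃ C : ℝ, ∀ z z', gp o (F' z) (F' z') ≤ L ^ 2 * gp o (F z) (F z') + C := by
  obtain ⟨M, hM, hM2⟩ := hZ
  have hlog : 0 ≤ Real.log 4 := Real.log_nonneg (by norm_num)
  obtain ⟨C, hC0, hC⟩ := stability (H := ℍ) (δ := Real.log 4) (S := 2 * L * M + A) (a := M * L)
    (b := 1 + M * L * A + M ^ 2) hlog (by positivity) (by positivity) (by positivity)
    hyp_halfPlane geo_halfPlane
  refine ⟨dist (F' z0) o + L ^ 2 * (dist (F z0) o + C + A) + A + C, ?_⟩
  intro z z'
  obtain ⟨T, γ, hT, hγ0, hγT, hγ⟩ := hM2 z z'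
  have c1 := chain_of_quasi hL hM hup hlo hT hγ
  have c2 := chain_of_quasi hL hM hup' hlo' hT hγ
  obtain ⟨⟨i, hi, hi1⟩, -⟩ := hC _ _ c1 o
  obtain ⟨-, hi2⟩ := hC _ _ c2 o
  have hi2 := hi2 i hi
  simp only [Nat.cast_zero, min_eq_left hT, hγ0, min_eq_right (Nat.le_ceil T), hγT] at hi1 hi2
  set w := γ (min (i : ℝ) T) with hw
  have h1 := hlo z0 w
  have h2 := hup' z0 w
  have h3 : dist z0 w ≤ L * (dist (F z0) (F w) + A) := by
    have : L⁻¹ * dist z0 w ≤ dist (F z0) (F w) + A := by linarith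
    rwa [inv_mul_le_iff₀ (by linarith)] at this
  have h4 := dist_triangle (F z0) o (F w)
  rw [dist_comm o (F w)] at h4
  have h5 := dist_triangle (F' w) (F' z0) o
  rw [dist_comm (F' w) (F' z0)] at h5
  have h6 : dist z0 w ≤ L * (dist (F z0) o + (gp o (F z) (F z') + C) + A) :=
    h3.trans (mul_le_mul_of_nonneg_left (by linarith) (by linarith))
  have h7 := mul_le_mul_of_nonneg_left h6 (by linarith : (0 : ℝ) ≤ L)
  nlinarith

theorem exp_gp (p q : ℍ) : Real.exp (gp I p q) =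
    Real.exp (dist p I / 2) * Real.exp (dist q I / 2) / Real.exp (dist p q / 2) := by
  rw [← Real.exp_add, ← Real.exp_sub]
  congr 1
  unfold gp
  ring

theorem gp_upper (p q : ℍ) (h : 0 < |p.re - q.re|) :
    Real.exp (gp I p q) ≤ (‖(p : ℂ)‖ + 1) * (‖(q : ℂ)‖ + 1) / |p.re - q.re| := by
  have hp : 0 < Real.sqrt p.im := Real.sqrt_pos.2 p.im_pos
  have hq : 0 < Real.sqrt q.im := Real.sqrt_pos.2 q.im_pos
  have e1 : ∀ r : ℍ, Real.exp (dist r I / 2) ≤ (‖(r : ℂ)‖ + 1) / Real.sqrt r.im := by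
    intro r
    have hr : 0 < Real.sqrt r.im := Real.sqrt_pos.2 r.im_pos
    rw [exp_half_dist, I_im, mul_one, div_le_div_iff₀ (by positivity) hr]
    have h1 : dist (r : ℂ) (I : ℍ) ≤ ‖(r : ℂ)‖ + 1 := by
      rw [Complex.dist_eq]
      refine (norm_sub_le _ _).trans ?_
      simp
    have h2 : dist (r : ℂ) ((starRingEnd ℂ) (I : ℍ)) ≤ ‖(r : ℂ)‖ + 1 := by
      rw [Complex.dist_eq]
      refine (norm_sub_le _ _).trans ?_
      simp
    nlinarith
  have e2 : |p.re - q.re| / (Real.sqrt p.im * Real.sqrt q.im) ≤ Real.exp (dist p q / 2) := by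
    rw [exp_half_dist, Real.sqrt_mul p.im_pos.le, div_le_div_iff₀ (by positivity) (by positivity)]
    have h1 : |p.re - q.re| ≤ dist (p : ℂ) q := by
      rw [Complex.dist_eq]
      simpa using Complex.abs_re_le_norm ((p : ℂ) - q)
    have h2 : |p.re - q.re| ≤ dist (p : ℂ) ((starRingEnd ℂ) q) := by
      rw [Complex.dist_eq]
      simpa using Complex.abs_re_le_norm ((p : ℂ) - (starRingEnd ℂ) q)
    have h3 : 0 < Real.sqrt p.im * Real.sqrt q.im := by positivity
    nlinarith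
  rw [exp_gp, div_le_div_iff₀ (Real.exp_pos _) h]
  rw [div_le_iff₀ (by positivity)] at e2
  have h1 := mul_le_mul (e1 p) (e1 q) (Real.exp_pos _).le (by positivity)
  calc Real.exp (dist p I / 2) * Real.exp (dist q I / 2) * |p.re - q.re|
      ≤ ((‖(p : ℂ)‖ + 1) / Real.sqrt p.im * ((‖(q : ℂ)‖ + 1) / Real.sqrt q.im)) *
        (Real.exp (dist p q / 2) * (Real.sqrt p.im * Real.sqrt q.im)) :=
        mul_le_mul h1 e2 (abs_nonneg _) (by positivity)
    _ = _ := by
      field_simp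

theorem gp_lower (p q : ℍ) :
    ‖(p : ℂ)‖ * ‖(q : ℂ)‖ / (‖(p : ℂ)‖ + ‖(q : ℂ)‖) ≤ Real.exp (gp I p q) := by
  have hp : 0 < Real.sqrt p.im := Real.sqrt_pos.2 p.im_pos
  have hq : 0 < Real.sqrt q.im := Real.sqrt_pos.2 q.im_pos
  have np : 0 < ‖(p : ℂ)‖ := norm_pos_iff.2 p.ne_zero
  have nq : 0 < ‖(q : ℂ)‖ := norm_pos_iff.2 q.ne_zero
  have e1 : ∀ r : ℍ, ‖(r : ℂ)‖ / Real.sqrt r.im ≤ Real.exp (dist r I / 2) := by
    intro r
    have hr : 0 < Real.sqrt r.im := Real.sqrt_pos.2 r.im_pos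
    rw [exp_half_dist, I_im, mul_one, div_le_div_iff₀ hr (by positivity)]
    have h1 : 2 * ‖(r : ℂ)‖ ≤ dist (r : ℂ) (I : ℍ) + dist (r : ℂ) ((starRingEnd ℂ) (I : ℍ)) := by
      rw [Complex.dist_eq, Complex.dist_eq]
      have := norm_add_le ((r : ℂ) - (I : ℍ)) ((r : ℂ) - (starRingEnd ℂ) (I : ℍ))
      have e : ((r : ℂ) - (I : ℍ)) + ((r : ℂ) - (starRingEnd ℂ) (I : ℍ)) = 2 * (r : ℂ) := by
        simp; ring
      rw [e, norm_mul] at this
      simpa using this
    nlinarith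
  have e2 : Real.exp (dist p q / 2) ≤
      (‖(p : ℂ)‖ + ‖(q : ℂ)‖) / (Real.sqrt p.im * Real.sqrt q.im) := by
    rw [exp_half_dist, Real.sqrt_mul p.im_pos.le, div_le_div_iff₀ (by positivity) (by positivity)]
    have h1 : dist (p : ℂ) q ≤ ‖(p : ℂ)‖ + ‖(q : ℂ)‖ := by
      rw [Complex.dist_eq]
      exact norm_sub_le _ _
    have h2 : dist (p : ℂ) ((starRingEnd ℂ) q) ≤ ‖(p : ℂ)‖ + ‖(q : ℂ)‖ := by
      rw [Complex.dist_eq]
      refine (norm_sub_le _ _).trans ?_
      simp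
    have h3 : 0 < Real.sqrt p.im * Real.sqrt q.im := by positivity
    nlinarith
  rw [exp_gp, div_le_div_iff₀ (by positivity) (Real.exp_pos _)]
  rw [le_div_iff₀ (by positivity)] at e2
  have h1 := mul_le_mul (e1 p) (e1 q) (by positivity) (Real.exp_pos _).le
  calc ‖(p : ℂ)‖ * ‖(q : ℂ)‖ * Real.exp (dist p q / 2)
      = (‖(p : ℂ)‖ / Real.sqrt p.im * (‖(q : ℂ)‖ / Real.sqrt q.im)) *
        (Real.exp (dist p q / 2) * (Real.sqrt p.im * Real.sqrt q.im)) := by
        field_simp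
    _ ≤ _ := mul_le_mul h1 e2 (by positivity) (by positivity)

theorem kak_close {g k k' : SL(2, ℝ)} {t c : ℝ} (hk : k ∈ SO2) (hk' : k' ∈ SO2)
    (h : g = k * diagA t * k') (hc : (k : GL (Fin 2) ℝ) • (∞ : OnePoint ℝ) = (c : OnePoint ℝ)) :
    ‖((g • I : ℍ) : ℂ) - c‖ ≤ (1 + c ^ 2) * Real.exp (-t) := by
  obtain ⟨h1, h2, h3⟩ := so2_entries hk
  rw [OnePoint.smul_infty_eq_ite] at hc
  have hne : k 1 0 ≠ 0 := by
    intro h0
    have : ((k : GL (Fin 2) ℝ) 1 0) = 0 := h0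
    rw [if_pos this] at hc
    exact OnePoint.infty_ne_coe _ hc
  have hc2 : k 0 0 / k 1 0 = c := by
    have : ((k : GL (Fin 2) ℝ) 1 0) ≠ 0 := hne
    rw [if_neg this] at hc
    exact_mod_cast hc
  rw [h, mul_smul, mul_smul, so2_smul_I hk', coe_specialLinearGroup_apply, diagA_smul_I]
  simp only [Algebra.algebraMap_self, RingHom.id_apply, h1, h2]
  set a : ℝ := k 0 0 with ha
  set b : ℝ := k 1 0 with hb
  set y : ℝ := Real.exp t with hy
  have hy0 : 0 < y := Real.exp_pos t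
  have hbC : (b : ℂ) ≠ 0 := by exact_mod_cast hne
  have hden : (b : ℂ) * (Complex.I * y) + a ≠ 0 := by
    intro h0
    have := congrArg Complex.im h0
    simp at this
    rcases this with h4 | h4
    · exact hne h4
    · exact hy0.ne' h4
  have e1 : ((a : ℂ) * (Complex.I * y) + ((-b : ℝ) : ℂ)) / ((b : ℂ) * (Complex.I * y) + a) - c =
      -(((b : ℂ) * ((b : ℂ) * (Complex.I * y) + a))⁻¹) := by
    have : (a : ℂ) ^ 2 + (b : ℂ) ^ 2 = 1 := by exact_mod_cast h3
    rw [← hc2]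
    push_cast
    rw [div_sub_div _ _ hden hbC, inv_eq_one_div, ← neg_div,
      div_eq_div_iff (mul_ne_zero hden hbC) (mul_ne_zero hbC hden)]
    linear_combination (-((b : ℂ) * ((b : ℂ) * (Complex.I * y) + a))) * this
  rw [e1, norm_neg, norm_inv, norm_mul]
  have e2 : |b| * y ≤ ‖(b : ℂ) * (Complex.I * y) + a‖ := by
    have := Complex.abs_im_le_norm ((b : ℂ) * (Complex.I * y) + a)
    simpa [abs_mul, abs_of_pos hy0] using this
  have e3 : 1 + c ^ 2 = (b ^ 2)⁻¹ := by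
    rw [← hc2]
    field_simp
    linarith
  have e4 : Real.exp (-t) = y⁻¹ := by rw [Real.exp_neg]
  rw [e3, e4, ← mul_inv]
  have hb2 : 0 < |b| := abs_pos.2 hne
  apply inv_anti₀ (by positivity)
  rw [Complex.norm_real, Real.norm_eq_abs]
  have := mul_le_mul_of_nonneg_left e2 hb2.le
  calc b ^ 2 * y = |b| * (|b| * y) := by rw [← sq_abs b]; ring
    _ ≤ _ := this

theorem factor_close {g k k' : ℕ → SL(2, ℝ)} {t : ℕ → ℝ} (hk : ∀ m, k m ∈ SO2)
    (hk' : ∀ m, k' m ∈ SO2) (h : ∀ m, g m = k m * diagA (t m) * k' m)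
    (ht : Tendsto t atTop atTop) {x : ℝ}
    (hu : Tendsto (fun m => (k m : GL (Fin 2) ℝ) • (∞ : OnePoint ℝ)) atTop
      (𝓝 (x : OnePoint ℝ))) :
    ∀ᶠ m in atTop, ‖((g m • I : ℍ) : ℂ) - x‖ ≤ 1 := by
  have hn : ((↑) : ℝ → OnePoint ℝ) '' (Set.Ioo (x - 1 / 2) (x + 1 / 2)) ∈ 𝓝 (x : OnePoint ℝ) :=
    OnePoint.isOpenEmbedding_coe.isOpenMap.image_mem_nhds
      (Ioo_mem_nhds (by linarith) (by linarith))
  have e1 := hu.eventually hn
  have e2 : Tendsto (fun m => (1 + (|x| + 1 / 2) ^ 2) * Real.exp (-(t m))) atTop (𝓝 0) := by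
    have := (Real.tendsto_exp_neg_atTop_nhds_zero.comp ht).const_mul (1 + (|x| + 1 / 2) ^ 2)
    simpa using this
  have e3 := e2.eventually (Iic_mem_nhds (show (0 : ℝ) < 1 / 2 by norm_num))
  filter_upwards [e1, e3] with m h1 h2
  obtain ⟨c, hc, hc2⟩ := h1
  have h3 := kak_close (hk m) (hk' m) (h m) hc2.symm
  have h4 : |c - x| ≤ 1 / 2 := by
    rw [abs_le]; constructor <;> linarith [hc.1, hc.2]
  have h5 : c ^ 2 ≤ (|x| + 1 / 2) ^ 2 := by
    rw [← sq_abs c]
    have : |c| ≤ |x| + 1 / 2 := by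
      have := abs_add_le (c - x) x
      rw [sub_add_cancel] at this
      linarith
    exact pow_le_pow_left₀ (abs_nonneg c) this 2
  have h6 : ‖((g m • I : ℍ) : ℂ) - x‖ ≤ ‖((g m • I : ℍ) : ℂ) - c‖ + |c - x| := by
    have e : ((g m • I : ℍ) : ℂ) - x = (((g m • I : ℍ) : ℂ) - c) + ((c - x : ℝ) : ℂ) := by
      push_cast; ring
    rw [e]
    refine (norm_add_le _ _).trans ?_
    rw [Complex.norm_real, Real.norm_eq_abs]
  have h7 : (1 + c ^ 2) * Real.exp (-(t m)) ≤ 1 / 2 :=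
    le_trans (mul_le_mul_of_nonneg_right (by linarith) (Real.exp_pos _).le) h2
  linarith

/-- the constants of a regular embedding, for the two coordinates -/
theorem coord_bounds {Z : Type*} [MetricSpace Z] {f : Z → X} (hf : IsURQI f) :
    ∃ L A : ℝ, 1 ≤ L ∧ 0 ≤ A ∧ ∀ z z' : Z, ∀ g g' : G, (g : X) = f z → (g' : X) = f z' →
      (dist (g.1 • I : ℍ) (g'.1 • I) ≤ L * dist z z' + A ∧
        L⁻¹ * dist z z' - A ≤ dist (g.1 • I : ℍ) (g'.1 • I)) ∧
      (dist (g.2 • I : ℍ) (g'.2 • I) ≤ L * dist z z' + A ∧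
        L⁻¹ * dist z z' - A ≤ dist (g.2 • I : ℍ) (g'.2 • I)) := by
  obtain ⟨L, A, hL, hA, h⟩ := hf
  refine ⟨L, A, hL, hA, ?_⟩
  intro z z' g g' hg hg'
  obtain ⟨v, hv⟩ := exists_cartanProj (g⁻¹ * g')
  obtain ⟨h1, h2⟩ := h z z' g g' hg hg' v hv
  obtain ⟨d1, d2⟩ := cartan_dist hv
  have r0 := h2 0
  have r1 := h2 1
  rw [root_zero] at r0
  rw [root_one] at r1
  rw [d1, d2]
  refine ⟨⟨le_trans ?_ h1, r0⟩, ⟨le_trans ?_ h1, r1⟩⟩
  · exact Real.le_sqrt_of_sq_le (by nlinarith [sq_nonneg v.2])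
  · exact Real.le_sqrt_of_sq_le (by nlinarith [sq_nonneg v.1])

theorem exists_near {Z : Type*} [MetricSpace Z] {f : Z → X} (hf : IsURQI f) {x y : ℝ}
    (h : ((x : OnePoint ℝ), (y : OnePoint ℝ)) ∈ limitSet f) :
    ∃ (z : Z) (g : G), (g : X) = f z ∧ ‖((g.1 • I : ℍ) : ℂ) - x‖ ≤ 1 ∧
      ‖((g.2 • I : ℍ) : ℂ) - y‖ ≤ 1 := by
  obtain ⟨z, hz, g, hg, u, hu, hlim⟩ := h
  obtain ⟨L, A, hL, hA, hb⟩ := coord_bounds hf
  choose k hk v hv k' hk' hpos hgk huk using hu
  have hd : Tendsto (fun m => dist (z 0) (z m)) atTop atTop :=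
    (Metric.tendsto_dist_left_cobounded_atTop (z 0)).comp hz
  have hd2 : Tendsto (fun m => L⁻¹ * dist (z 0) (z m)) atTop atTop :=
    hd.const_mul_atTop (by positivity)
  have t1 : Tendsto (fun m => (v m).1) atTop atTop := by
    refine tendsto_atTop_mono ?_
      (tendsto_atTop_add_const_right atTop (-A - dist (I : ℍ) ((g 0).1 • I)) hd2)
    intro m
    have h1 := (hb (z 0) (z m) (g 0) (g m) (hg 0) (hg m)).1.2
    have h2 : dist (I : ℍ) ((g m).1 • I) = (v m).1 :=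
      dist_of_kak (by have := hv m 0; rwa [root_zero] at this) (hk m).1 (hk' m).1
        (congrArg Prod.fst (hgk m))
    have h3 := dist_triangle ((g 0).1 • I : ℍ) I ((g m).1 • I)
    rw [dist_comm ((g 0).1 • I : ℍ) I] at h3
    linarith
  have t2 : Tendsto (fun m => (v m).2) atTop atTop := by
    refine tendsto_atTop_mono ?_
      (tendsto_atTop_add_const_right atTop (-A - dist (I : ℍ) ((g 0).2 • I)) hd2)
    intro m
    have h1 := (hb (z 0) (z m) (g 0) (g m) (hg 0) (hg m)).2.2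
    have h2 : dist (I : ℍ) ((g m).2 • I) = (v m).2 :=
      dist_of_kak (by have := hv m 1; rwa [root_one] at this) (hk m).2 (hk' m).2
        (congrArg Prod.snd (hgk m))
    have h3 := dist_triangle ((g 0).2 • I : ℍ) I ((g m).2 • I)
    rw [dist_comm ((g 0).2 • I : ℍ) I] at h3
    linarith
  have l1 : Tendsto (fun m => ((k m).1 : GL (Fin 2) ℝ) • (∞ : OnePoint ℝ)) atTop
      (𝓝 (x : OnePoint ℝ)) := by
    have := (continuous_fst.tendsto _).comp hlim
    refine this.congr fun m => ?_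
    simp only [Function.comp, huk m, act, base]
  have l2 : Tendsto (fun m => ((k m).2 : GL (Fin 2) ℝ) • (∞ : OnePoint ℝ)) atTop
      (𝓝 (y : OnePoint ℝ)) := by
    have := (continuous_snd.tendsto _).comp hlim
    refine this.congr fun m => ?_
    simp only [Function.comp, huk m, act, base]
  have c1 := factor_close (fun m => (hk m).1) (fun m => (hk' m).1)
    (fun m => congrArg Prod.fst (hgk m)) t1 l1
  have c2 := factor_close (fun m => (hk m).2) (fun m => (hk' m).2)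
    (fun m => congrArg Prod.snd (hgk m)) t2 l2
  obtain ⟨m, h1, h2⟩ := (c1.and c2).exists
  exact ⟨z m, g m, hg m, h1, h2⟩

/-- the homeomorphism of the circle `ℝ ∪ {∞}` that extends `sinh` -/
noncomputable def hsinh : OnePoint ℝ ≃ₜ OnePoint ℝ := Real.sinhHomeomorph.onePointCongr

theorem hsinh_coe (x : ℝ) : hsinh (x : OnePoint ℝ) = (Real.sinh x : OnePoint ℝ) := rfl

theorem no_filling {Z : Type*} [MetricSpace Z] (hZ : IsQuasiGeodesicSpace Z) {f : Z → X}
    (hf : IsURQI f) (hΛ : ∀ x : ℝ, ((x : OnePoint ℝ), (Real.sinh x : OnePoint ℝ)) ∈ limitSet f) :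
    False := by
  obtain ⟨z0, g0, hg0, -, -⟩ := exists_near hf (hΛ 0)
  obtain ⟨L, A, hL, hA, hb⟩ := coord_bounds hf
  set rep : Z → G := fun z => (f z).out with hrep
  have hrepz : ∀ z, (rep z : X) = f z := fun z => QuotientGroup.out_eq' (f z)
  obtain ⟨C, hC⟩ := compare hZ hL hA (F := fun z => (rep z).1 • I) (F' := fun z => (rep z).2 • I)
    (fun z z' => (hb z z' _ _ (hrepz z) (hrepz z')).1.1)
    (fun z z' => (hb z z' _ _ (hrepz z) (hrepz z')).1.2)
    (fun z z' => (hb z z' _ _ (hrepz z) (hrepz z')).2.1)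
    (fun z z' => (hb z z' _ _ (hrepz z) (hrepz z')).2.2) I z0
  -- the resulting inequality
  have main : ∀ u : ℝ, 2 ≤ u → Real.log (Real.sinh u / 16) ≤ L ^ 2 * Real.log (4 * u) + C := by
    intro u hu
    have hS : 3 ≤ Real.sinh u := by
      have h1 : Real.sinh 2 ≤ Real.sinh u := Real.sinh_le_sinh.2 hu
      have h2 : 3 ≤ Real.sinh 2 := by
        rw [Real.sinh_eq]
        have h3 : (2.7182818283 : ℝ) < Real.exp 1 := Real.exp_one_gt_d9
        have h4 : Real.exp 2 = Real.exp 1 * Real.exp 1 := by rw [← Real.exp_add]; norm_num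
        have h5 : Real.exp (-2) ≤ 1 := Real.exp_le_one_iff.2 (by norm_num)
        nlinarith
      linarith
    obtain ⟨z, g, hg, n1, n2⟩ := exists_near hf (hΛ u)
    obtain ⟨z', g', hg', n1', n2'⟩ := exists_near hf (hΛ (-u))
    have hcmp := hC z z'
    beta_reduce at hcmp
    rw [(mk_eq ((hrepz z).trans hg.symm)).1, (mk_eq ((hrepz z').trans hg'.symm)).1,
      (mk_eq ((hrepz z).trans hg.symm)).2, (mk_eq ((hrepz z').trans hg'.symm)).2] at hcmp
    set p : ℍ := g.1 • I with hp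
    set p' : ℍ := g'.1 • I with hp'
    set q : ℍ := g.2 • I with hq
    set q' : ℍ := g'.2 • I with hq'
    set S := Real.sinh u with hSdef
    -- first factor
    have r1 : u - 1 ≤ p.re := by
      have := Complex.abs_re_le_norm ((p : ℂ) - u)
      simp only [Complex.sub_re, Complex.ofReal_re] at this
      have h2 := neg_abs_le ((p : ℂ).re - u)
      have h3 : (p : ℂ).re = p.re := rfl
      linarith
    have r2 : p'.re ≤ -u + 1 := by
      have := Complex.abs_re_le_norm ((p' : ℂ) - (-u : ℝ))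
      simp only [Complex.sub_re, Complex.ofReal_re] at this
      have h2 := le_abs_self ((p' : ℂ).re - (-u))
      have h3 : (p' : ℂ).re = p'.re := rfl
      linarith
    have r3 : u ≤ |p.re - p'.re| := le_trans (by linarith) (le_abs_self _)
    have np : ‖(p : ℂ)‖ ≤ u + 1 := by
      have := norm_add_le ((p : ℂ) - u) (u : ℂ)
      rw [sub_add_cancel, Complex.norm_real, Real.norm_eq_abs, abs_of_pos (by linarith)] at this
      linarith
    have np' : ‖(p' : ℂ)‖ ≤ u + 1 := by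
      have := norm_add_le ((p' : ℂ) - (-u : ℝ)) ((-u : ℝ) : ℂ)
      rw [sub_add_cancel, Complex.norm_real, Real.norm_eq_abs, abs_neg,
        abs_of_pos (by linarith)] at this
      linarith
    have up : gp I p p' ≤ Real.log (4 * u) := by
      rw [Real.le_log_iff_exp_le (by linarith)]
      refine (gp_upper p p' (by linarith)).trans ?_
      rw [div_le_iff₀ (by linarith)]
      have : (‖(p : ℂ)‖ + 1) * (‖(p' : ℂ)‖ + 1) ≤ (u + 2) * (u + 2) :=
        mul_le_mul (by linarith) (by linarith) (by positivity) (by linarith)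
      nlinarith
    -- second factor
    have nq : S - 1 ≤ ‖(q : ℂ)‖ ∧ ‖(q : ℂ)‖ ≤ S + 1 := by
      have h1 := norm_add_le ((q : ℂ) - S) (S : ℂ)
      have h2 := norm_sub_norm_le (S : ℂ) (q : ℂ)
      rw [norm_sub_rev] at h2
      rw [sub_add_cancel] at h1
      rw [Complex.norm_real, Real.norm_eq_abs, abs_of_pos (by linarith)] at h1 h2
      constructor <;> linarith
    have nq' : S - 1 ≤ ‖(q' : ℂ)‖ ∧ ‖(q' : ℂ)‖ ≤ S + 1 := by
      rw [Real.sinh_neg] at n2'
      have h1 := norm_add_le ((q' : ℂ) - (-S : ℝ)) ((-S : ℝ) : ℂ)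
      have h2 := norm_sub_norm_le ((-S : ℝ) : ℂ) (q' : ℂ)
      rw [norm_sub_rev] at h2
      rw [sub_add_cancel] at h1
      rw [Complex.norm_real, Real.norm_eq_abs, abs_neg, abs_of_pos (by linarith)] at h1 h2
      constructor <;> linarith
    have lo : Real.log (S / 16) ≤ gp I q q' := by
      rw [Real.log_le_iff_le_exp (by linarith)]
      refine le_trans ?_ (gp_lower q q')
      rw [div_le_div_iff₀ (by norm_num) (by linarith [nq.1, nq'.1])]
      have : (S - 1) * (S - 1) ≤ ‖(q : ℂ)‖ * ‖(q' : ℂ)‖ :=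
        mul_le_mul nq.1 nq'.1 (by linarith) (by linarith [nq.1])
      nlinarith [nq.2, nq'.2]
    have hL2 : 0 ≤ L ^ 2 := by positivity
    nlinarith [mul_le_mul_of_nonneg_left up hL2]
  -- contradiction for `u = exp s`
  have key : ∀ s : ℝ, 1 ≤ s → Real.exp s ≤ L ^ 2 * (2 + s) + C + 5 := by
    intro s hs
    have hu : 2 ≤ Real.exp s := by
      have := Real.add_one_le_exp s
      linarith
    have h1 := main (Real.exp s) hu
    set u := Real.exp s with hudef
    have h2 : Real.log (4 * u) ≤ 2 + s := by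
      rw [Real.log_mul (by norm_num) (by positivity), hudef, Real.log_exp]
      have : Real.log 4 ≤ 2 := by
        have h3 : Real.log 4 = 2 * Real.log 2 := by
          rw [show (4 : ℝ) = 2 ^ 2 by norm_num, Real.log_pow]; norm_num
        have := Real.log_two_lt_d9
        rw [h3]; linarith
      linarith
    have h3 : u - 5 ≤ Real.log (Real.sinh u / 16) := by
      rw [Real.le_log_iff_exp_le (by
        have := Real.sinh_pos_iff.2 (show 0 < u by linarith)
        positivity)]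
      rw [le_div_iff₀ (by norm_num), Real.sinh_eq, Real.exp_sub]
      have e5 : (64 : ℝ) ≤ Real.exp 5 := by
        have h3 : (2.7182818283 : ℝ) < Real.exp 1 := Real.exp_one_gt_d9
        have h4 : Real.exp 5 = Real.exp 1 ^ 5 := by
          rw [← Real.exp_nat_mul]; norm_num
        rw [h4]
        calc (64 : ℝ) ≤ 2.7182818283 ^ 5 := by norm_num
          _ ≤ _ := pow_le_pow_left₀ (by norm_num) h3.le 5
      have e6 : 2 ≤ Real.exp u := by
        have := Real.add_one_le_exp u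
        linarith
      have e7 : Real.exp (-u) ≤ 1 := Real.exp_le_one_iff.2 (by linarith)
      have e8 : Real.exp u / Real.exp 5 ≤ Real.exp u / 64 :=
        div_le_div_of_nonneg_left (Real.exp_pos _).le (by norm_num) e5
      linarith
    have hL2 : 0 ≤ L ^ 2 := by positivity
    nlinarith [mul_le_mul_of_nonneg_left h2 hL2]
  set s := 2 * L ^ 2 + |C| + 10 with hs
  have hL2 : 1 ≤ L ^ 2 := by nlinarith
  have hCabs := le_abs_self C
  have hCnn := abs_nonneg C
  have h1 := key s (by nlinarith)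
  have h2 := Real.quadratic_le_exp_of_nonneg (show 0 ≤ s by positivity)
  nlinarith

end Pool.Agent.H75.FT
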